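import Mathlib
import Pool.Agent.N988.ET.Stm

/-!
# Lower bound for all algorithms: definitions and statements of the parts
-/

open MeasureTheory Set Filter
open scoped Topology
open Pool.Agent.N988.EA Pool.Agent.N988.EC Pool.Agent.N988.EP Pool.Agent.N988.ES
open Pool.Agent.N988.ET

namespace Pool.Agent.N988.EU

noncomputable section

open Classical in
/-- From the revealed states `a` on the algorithm queries only unrevealed edges and stops only when
the crossing is known. -/
def Finds {b n : ℕ} : ET.Tree (Edge b n) → (Edge b n → Option Bool) → Prop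
  | .stop, a => Known a
  | .ask e t u, a => a e = none ∧ Finds t (Function.update a e (some false)) ∧
      Finds u (Function.update a e (some true))

/-- The mean number of the queries of `i` (`false` has the probability `p`). -/
def qr {ι : Type} [DecidableEq ι] (p : ℝ) : ET.Tree ι → ι → ℝ
  | .stop, _ => 0
  | .ask e t u, i => (if i = e then 1 else 0) + p * qr p t i + (1 - p) * qr p u i

/-- The algorithm decides `F`. -/
def Decides {ι : Type} [DecidableEq ι] : ET.Tree ι → ((ι → Bool) → ℝ) → Prop
  | .stop, F => ∀ w w', F w = F w'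
  | .ask e t u, F => Decides t (fun w => F (Function.update w e false)) ∧
      Decides u (fun w => F (Function.update w e true))

/-- The law of independent bits, `false` with probability `p`. -/
def bits (ι : Type) [Fintype ι] (p : ℝ) : Measure (ι → Bool) :=
  Measure.pi fun _ => coin (1 - p)

/-- U1, S_OSSS (inequality of O'Donnell, Saks, Schramm and Servedio; inductive proof of H. K. Lee).
Induction on `T` for all `F`, `G`. For `ask e t u` let `F₀, F₁, G₀, G₁` be the functions with the
coordinate `e` replaced by `false`, `true`. With `∫ F = p ∫ F₀ + (1 - p) ∫ F₁` (the same for `F G`)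
`Cov (F, G) = p (1 - p) ∫ (F₀ - F₁) (G₀ - G₁) + ∑ x y, p_x p_y Cov (F_x, G_y)`, the first term is at
most `p (1 - p) ∫ |G₀ - G₁|`, and for `Cov (F_x, G_y)` use the hypothesis for the subtree `x` and
`G_y`; `∑ y, p_y ∫ |G_y (w, i = false) - G_y (w, i = true)|` is the same integral for `G` if `i ≠ e`,
and for `i = e` it is `0`. -/
def S_OSSS : Prop := ∀ (ι : Type) [Fintype ι] [DecidableEq ι] (p : ℝ), 0 ≤ p → p ≤ 1 →
  ∀ (T : ET.Tree ι) (F G : (ι → Bool) → ℝ), (∀ w, F w ∈ Icc (0 : ℝ) 1) → Decides T F →
    ∫ w, F w * G w ∂(bits ι p) - (∫ w, F w ∂(bits ι p)) * (∫ w, G w ∂(bits ι p)) ≤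
      p * (1 - p) * ∑ i, qr p T i *
        ∫ w, |G (Function.update w i false) - G (Function.update w i true)| ∂(bits ι p)

/-- U2, S_FC (as in `Pool/Agent/N286/ET_B2.lean` for `Runs`). -/
def S_FC : Prop := ∀ (b n : ℕ), 1 ≤ b → ∀ p : ℝ, 0 < p → p < 1 →
  ∀ (t : ET.Tree (Edge b n)) (a : Edge b n → Option Bool), Finds t a →
    ∫ w, (steps t w : ℝ) ∂(iid (coin (1 - p)) b n) = cost p t

end

end Pool.Agent.N988.EU
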