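import Mathlib
import Pool.Agent.N988.EU.Stm
import Pool.Agent.N988.ET.Main

/-!
# The lower bound from the inequality of O'Donnell, Saks, Schramm and Servedio
-/

open MeasureTheory Set Filter
open scoped Topology
open Pool.Agent.N988.EA Pool.Agent.N988.EC Pool.Agent.N988.EP Pool.Agent.N988.ES
open Pool.Agent.N988.ET

namespace Pool.Agent.N988.EU

noncomputable section

/-- The configuration `w` with the revealed states put in. -/
def ov {b n : ℕ} (a : Edge b n → Option Bool) (w : Edge b n → Bool) : Edge b n → Bool :=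
  fun e => (a e).getD (w e)

/-- The indicator of the crossing. -/
def ind {b n : ℕ} (w : Edge b n → Bool) : ℝ := if across w = 0 then 1 else 0

lemma fits_ov {b n : ℕ} (a : Edge b n → Option Bool) (w : Edge b n → Bool) : Fits a (ov a w) := by
  intro e x h
  unfold ov
  rw [h]
  rfl

lemma ind_eq {b n : ℕ} (w : Edge b n → Bool) : ind w = (1 + cross w) / 2 := by
  unfold ind cross
  split_ifs <;> norm_num

open Classical in
lemma ov_update {b n : ℕ} (a : Edge b n → Option Bool) (e : Edge b n) (x : Bool) (h : a e = none)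
    (w : Edge b n → Bool) :
    ov a (Function.update w e x) = ov (Function.update a e (some x)) w := by
  funext e'
  unfold ov
  by_cases he : e' = e
  · subst he
    rw [h, Function.update_self, Function.update_self]
    rfl
  · rw [Function.update_of_ne he, Function.update_of_ne he]

open Classical in
lemma decides {b n : ℕ} : ∀ (t : ET.Tree (Edge b n)) (a : Edge b n → Option Bool), Finds t a →
    Decides t (fun w => ind (ov a w))
  | .stop, a, h => fun w w' => by
    have h1 : cross (ov a w) = cross (ov a w') := h _ _ (fits_ov a w) (fits_ov a w')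
    change ind (ov a w) = ind (ov a w')
    rw [ind_eq, ind_eq, h1]
  | .ask e t u, a, h => by
    obtain ⟨h0, h1, h2⟩ := h
    refine ⟨?_, ?_⟩
    · have h3 := decides t _ h1
      simp only [ov_update a e false h0]
      exact h3
    · have h3 := decides u _ h2
      simp only [ov_update a e true h0]
      exact h3

lemma sum_qr {ι : Type} [Fintype ι] [DecidableEq ι] (p : ℝ) : ∀ t : ET.Tree ι,
    ∑ i, qr p t i = cost p t
  | .stop => by simp [qr, cost]
  | .ask e t u => by
    simp only [qr, cost]
    rw [Finset.sum_add_distrib, Finset.sum_add_distrib, ← Finset.mul_sum, ← Finset.mul_sum,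
      sum_qr p t, sum_qr p u]
    simp

open Classical in
lemma abs_ind {b n : ℕ} (w : Edge b n → Bool) (e : Edge b n) :
    |ind (Function.update w e false) - ind (Function.update w e true)| =
      if e ∈ piv w then 1 else 0 := by
  have h1 : e ∈ piv w ↔ cross (Function.update w e false) ≠ cross (Function.update w e true) := by
    change cross (Function.update w e (!w e)) ≠ cross w ↔ _
    cases h : w e
    · have h2 : Function.update w e false = w := by rw [← h]; exact Function.update_eq_self e w
      rw [h2, Bool.not_false]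
      exact ne_comm
    · have h2 : Function.update w e true = w := by rw [← h]; exact Function.update_eq_self e w
      rw [h2, Bool.not_true]
  rw [ind_eq, ind_eq]
  have c1 : cross (Function.update w e false) = 1 ∨ cross (Function.update w e false) = -1 := by
    unfold cross; split_ifs <;> simp
  have c2 : cross (Function.update w e true) = 1 ∨ cross (Function.update w e true) = -1 := by
    unfold cross; split_ifs <;> simp
  by_cases h : e ∈ piv w
  · rw [if_pos h]
    rw [h1] at h
    rcases c1 with c1 | c1 <;> rcases c2 with c2 | c2 <;> rw [c1, c2] at h ⊢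
    · exact absurd rfl h
    · norm_num
    · norm_num
    · exact absurd rfl h
  · rw [if_neg h]
    rw [h1, not_not] at h
    rw [h]
    simp

lemma rho_mul {b : ℕ} {p : ℝ} (hc : Crit b p) : rho b p * (1 + 1 / p) = 1 := by
  have hp := hc.pos
  have hp1 := hc.lt
  have hb := hc.two
  have hq : (1 - p ^ 2) ^ b = (1 - p ^ 2) ^ (b - 1) * (1 - p ^ 2) := by
    rw [← pow_succ]
    congr 1
    omega
  have h1 : (1 - p ^ 2) ^ (b - 1) * (1 - p ^ 2) = 1 - p := by rw [← hq]; linarith [hc.fix]
  have h2 : (1 - p ^ 2) ^ (b - 1) * (1 + p) = 1 := by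
    have h3 : (1 - p) * ((1 - p ^ 2) ^ (b - 1) * (1 + p)) = (1 - p) * 1 := by
      rw [mul_one, ← h1]
      nlinarith [h1]
    exact mul_left_cancel₀ (by linarith : (1 : ℝ) - p ≠ 0) h3
  unfold rho
  have h4 : p * (1 - p ^ 2) ^ (b - 1) * (1 + 1 / p) = (1 - p ^ 2) ^ (b - 1) * (1 + p) := by
    field_simp
    ring
  rw [h4, h2]

open Classical in
theorem cost_ge (h1 : S_OSSS) {b : ℕ} {p : ℝ} (hc : Crit b p) (n : ℕ) (t : ET.Tree (Edge b n))
    (ht : Finds t (fun _ => none)) : (1 + 1 / p) ^ n ≤ cost p t := by
  have hp := hc.pos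
  have hp1 := hc.lt
  haveI : IsProbabilityMeasure (coin (1 - p)) := coin_prob (by linarith) (by linarith)
  haveI : IsProbabilityMeasure (iid (coin (1 - p)) b n) := iid_prob _ b n
  have hd := decides t _ ht
  have hov : ∀ w : Edge b n → Bool, ov (fun _ => none) w = w := fun w => rfl
  simp only [hov] at hd
  have h2 := h1 (Edge b n) p hp.le hp1.le t ind ind (fun w => by
    unfold ind; split_ifs <;> simp) hd
  obtain ⟨e1, e2, e3⟩ := k_FR b p hc n
  have hbits : bits (Edge b n) p = iid (coin (1 - p)) b n := rfl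
  rw [hbits] at h2
  have hmeas : ∀ s : Set (Edge b n → Bool), MeasurableSet s := fun s => s.toFinite.measurableSet
  have hfit : ∀ w : Edge b n → Bool, Fits (fresh b n) w := fun w e x h => by
    simp [fresh] at h
  have hI : ∫ w, ind w ∂(iid (coin (1 - p)) b n) = p := by
    have : (fun w : Edge b n → Bool => ind w) = Set.indicator {w | Fits (fresh b n) w ∧ cross w = 1}
        (fun _ => (1 : ℝ)) := by
      funext w
      unfold ind Set.indicator cross
      by_cases h : across w = 0
      · simp [h, hfit w]
      · simp only [h, if_false, Set.mem_setOf_eq, hfit w, true_and]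
        norm_num
    rw [this, integral_indicator (hmeas _), setIntegral_const, smul_eq_mul, mul_one]
    exact e2
  have hII : ∫ w, ind w * ind w ∂(iid (coin (1 - p)) b n) = p := by
    have : (fun w : Edge b n → Bool => ind w * ind w) = fun w => ind w := by
      funext w
      unfold ind
      split_ifs <;> simp
    rw [this]
    exact hI
  have hinf : ∀ i : Edge b n, ∫ w, |ind (Function.update w i false) -
      ind (Function.update w i true)| ∂(iid (coin (1 - p)) b n) = rho b p ^ n := by
    intro i
    have : (fun w : Edge b n → Bool => |ind (Function.update w i false) -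
        ind (Function.update w i true)|) = Set.indicator {w | Fits (fresh b n) w ∧ i ∈ piv w}
        (fun _ => (1 : ℝ)) := by
      funext w
      rw [abs_ind]
      unfold Set.indicator
      by_cases h : i ∈ piv w
      · simp [h, hfit w]
      · simp [h]
    rw [this, integral_indicator (hmeas _), setIntegral_const, smul_eq_mul, mul_one]
    exact e3 i
  rw [hII, hI] at h2
  simp only [hinf] at h2
  rw [← Finset.sum_mul, sum_qr] at h2
  have h3 : 0 < p * (1 - p) := mul_pos hp (by linarith)
  have h4 : 1 ≤ cost p t * rho b p ^ n := by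
    have : p * (1 - p) * 1 ≤ p * (1 - p) * (cost p t * rho b p ^ n) := by
      calc p * (1 - p) * 1 = p - p * p := by ring
        _ ≤ _ := h2
    exact le_of_mul_le_mul_left this h3
  have h5 : rho b p ^ n * (1 + 1 / p) ^ n = 1 := by
    rw [← mul_pow, rho_mul hc, one_pow]
  have h6 : 0 < (1 + 1 / p) ^ n := by positivity
  calc (1 + 1 / p) ^ n = 1 * (1 + 1 / p) ^ n := by ring
    _ ≤ cost p t * rho b p ^ n * (1 + 1 / p) ^ n := mul_le_mul_of_nonneg_right h4 h6.le
    _ = cost p t * (rho b p ^ n * (1 + 1 / p) ^ n) := by ring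
    _ = cost p t := by rw [h5, mul_one]

open Classical in
lemma finds_of_runs {b n : ℕ} {p : ℝ} : ∀ (t : ET.Tree (Edge b n)) (a : Edge b n → Option Bool),
    Runs p t a → Finds t a
  | .stop, _, h => h
  | .ask _ t u, _, h => ⟨h.2.1.1, finds_of_runs t _ h.2.2.1, finds_of_runs u _ h.2.2.2⟩

theorem t_QC (h1 : S_OSSS) (h2 : S_FC) (b : ℕ) (hb : 2 ≤ b) :
    ∃ pc : ℝ, 0 < pc ∧ pc < 1 ∧ 1 - (1 - pc ^ 2) ^ b = pc ∧
    (∀ p : ℝ, 0 ≤ p → p < pc →
      Tendsto (fun n : ℕ => (iid (coin (1 - p)) b n).real {w | across w = 0}) atTop (𝓝 0)) ∧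
    (∀ p : ℝ, pc < p → p ≤ 1 →
      Tendsto (fun n : ℕ => (iid (coin (1 - p)) b n).real {w | across w = 0}) atTop (𝓝 1)) ∧
    ∀ n : ℕ, IsLeast {x : ℝ | ∃ t : ET.Tree (Edge b n), (Finds t fun _ => none) ∧
      x = ∫ w, (steps t w : ℝ) ∂(iid (coin (1 - pc)) b n)} ((1 + 1 / pc) ^ n) := by
  obtain ⟨pc, p0, p1, hf, hlt, hgt, hall, -⟩ := t_MP' k_BAS k_FR k_IND b hb
  have hc : Crit b pc := ⟨hb, p0, p1, hf⟩
  refine ⟨pc, p0, p1, hf, hlt, hgt, fun n => ⟨?_, ?_⟩⟩
  · obtain ⟨-, ⟨t, ht⟩, h3⟩ := hall n
    exact ⟨t, finds_of_runs t _ ht, (h3 t ht).symm⟩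
  · rintro x ⟨t, ht, rfl⟩
    rw [h2 b n (by omega) pc p0 p1 t _ ht]
    exact cost_ge h1 hc n t ht

end

end Pool.Agent.N988.EU
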