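import Mathlib
import Pool.Agent.N988.EU.Low
import Pool.Agent.N521.EU_OSSS
import Pool.Agent.N627.EU_FC

/-!
# The most-pivotal-site algorithm is optimal
-/

open MeasureTheory Set Filter
open scoped Topology
open Pool.Agent.N988.EA Pool.Agent.N988.EC Pool.Agent.N988.EP Pool.Agent.N988.ES
open Pool.Agent.N988.ET

namespace Pool.Agent.N988.EU

theorem k_OSSS : S_OSSS := Pool.Agent.N521.EU.t_OSSS

theorem k_FC : S_FC := Pool.Agent.N627.EU.t_FC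

theorem t_MP2 (b : ℕ) (hb : 2 ≤ b) : ∃ pc : ℝ, 0 < pc ∧ pc < 1 ∧
    1 - (1 - pc ^ 2) ^ b = pc ∧
    (∀ p : ℝ, 0 ≤ p → p < pc →
      Tendsto (fun n : ℕ => (iid (coin (1 - p)) b n).real {w | across w = 0}) atTop (𝓝 0)) ∧
    (∀ p : ℝ, pc < p → p ≤ 1 →
      Tendsto (fun n : ℕ => (iid (coin (1 - p)) b n).real {w | across w = 0}) atTop (𝓝 1)) ∧
    (∀ n : ℕ, (∀ e : Edge b n, Best pc (fun _ => none) e) ∧
      (∃ t : Pool.Agent.N988.ET.Tree (Edge b n), Runs pc t fun _ => none) ∧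
      (∀ t : Pool.Agent.N988.ET.Tree (Edge b n), (Runs pc t fun _ => none) →
        ∫ w, (steps t w : ℝ) ∂(iid (coin (1 - pc)) b n) = (1 + 1 / pc) ^ n) ∧
      ∀ t : Pool.Agent.N988.ET.Tree (Edge b n), (Finds t fun _ => none) →
        (1 + 1 / pc) ^ n ≤ ∫ w, (steps t w : ℝ) ∂(iid (coin (1 - pc)) b n)) ∧
    ∃ ε : ℝ, 0 < ε ∧ ∀ n : ℕ, (1 + 1 / pc) ^ n ≤ (Fintype.card (Edge b n) : ℝ) ^ (1 - ε) := by
  obtain ⟨pc, p0, p1, hf, hlt, hgt, hall, heps⟩ := t_MP' k_BAS k_FR k_IND b hb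
  have hc : Crit b pc := ⟨hb, p0, p1, hf⟩
  refine ⟨pc, p0, p1, hf, hlt, hgt, fun n => ?_, heps⟩
  obtain ⟨h1, h2, h3⟩ := hall n
  refine ⟨h1, h2, h3, fun t ht => ?_⟩
  rw [k_FC b n (by omega) pc p0 p1 t _ ht]
  exact cost_ge k_OSSS hc n t ht

end Pool.Agent.N988.EU
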